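import Mathlib

/-!
Universal construction for the partition problem.

Let `W` be an upward closed set of vectors in `ℕ^n` which contains `(1,…,1)`, does not contain `0`
and satisfies `u + e_i ∈ W → v + m e_i ∈ W → u + v ∈ W`.  Then the free group on countably many
generators has an `n`-colouring such that for every colour `i` and every set `F` of at most `m`
elements there is `g` such that `g h` and `f h` never both have colour `i` (`f ∈ F`, `h` arbitrary).
-/

set_option autoImplicit false

namespace Pool.Agent.P.MP_317811_al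

open FreeGroup

/-- The free group on countably many generators. -/
abbrev FG : Type := FreeGroup ℕ

/-- The permutation of `FG × Bool` attached to the generator `τ`; it flips the bit exactly on the
edge from `h` to `of σ * h`. -/
noncomputable def flipPerm (σ : ℕ) (h : FG) (τ : ℕ) : Equiv.Perm (FG × Bool) where
  toFun p := (of τ * p.1, if τ = σ ∧ p.1 = h then !p.2 else p.2)
  invFun p := ((of τ)⁻¹ * p.1, if τ = σ ∧ (of τ)⁻¹ * p.1 = h then !p.2 else p.2)
  left_inv p := by
    obtain ⟨w, b⟩ := p
    by_cases hc : τ = σ ∧ w = h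
    · simp [hc]
    · simp [hc]
  right_inv p := by
    obtain ⟨w, b⟩ := p
    by_cases hc : τ = σ ∧ (of τ)⁻¹ * w = h
    · simp only [mul_inv_cancel_left, if_pos hc, Bool.not_not]
    · simp only [mul_inv_cancel_left, if_neg hc]

theorem lift_fst (σ : ℕ) (h : FG) (u : FG) :
    ∀ p : FG × Bool, ((FreeGroup.lift (flipPerm σ h) u) p).1 = u * p.1 := by
  induction u using FreeGroup.induction_on with
  | C1 => intro p; simp
  | of τ => intro p; simp [flipPerm]
  | inv_of τ _ =>
    intro p
    rw [_root_.map_inv, FreeGroup.lift_apply_of]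
    rfl
  | mul a b ha hb =>
    intro p
    rw [_root_.map_mul, Equiv.Perm.mul_apply, ha, hb, mul_assoc]

/-- The side of the edge `(σ, h)` of the Cayley tree on which `w` lies. -/
noncomputable def side (σ : ℕ) (h w : FG) : Bool :=
  ((FreeGroup.lift (flipPerm σ h) (w * h⁻¹)) (h, false)).2

theorem side_self (σ : ℕ) (h : FG) : side σ h h = false := by
  simp [side]

theorem side_of_mul (σ : ℕ) (h : FG) (τ : ℕ) (w : FG) :
    side σ h (of τ * w) = if τ = σ ∧ w = h then !side σ h w else side σ h w := by
  have h1 : ((FreeGroup.lift (flipPerm σ h) (w * h⁻¹)) (h, false)).1 = w := by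
    rw [lift_fst]; simp
  unfold side
  rw [mul_assoc, _root_.map_mul, Equiv.Perm.mul_apply, FreeGroup.lift_apply_of]
  show (if τ = σ ∧ ((FreeGroup.lift (flipPerm σ h) (w * h⁻¹)) (h, false)).1 = h then _ else _) = _
  rw [h1]

theorem side_top (σ : ℕ) (h : FG) : side σ h (of σ * h) = true := by
  rw [side_of_mul, side_self]; simp

/-- The subgroup generated by the first `k` generators. -/
def lowSub (k : ℕ) : Subgroup FG := Subgroup.closure (FreeGroup.of '' {τ | τ < k})

theorem lowSub_mono {k l : ℕ} (hkl : k ≤ l) : lowSub k ≤ lowSub l :=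
  Subgroup.closure_mono (Set.image_mono fun _ ht => lt_of_lt_of_le ht hkl)

theorem side_low (σ : ℕ) (h : FG) {f : FG} (hf : f ∈ lowSub σ) :
    ∀ w, side σ h (f * w) = side σ h w := by
  induction hf using Subgroup.closure_induction with
  | mem x hx =>
    obtain ⟨τ, hτ, rfl⟩ := hx
    intro w
    rw [side_of_mul, if_neg]
    rintro ⟨h1, -⟩
    exact absurd hτ (by simp [h1])
  | one => intro w; simp
  | mul x y _ _ hx hy => intro w; rw [mul_assoc, hx, hy]
  | inv x _ hx => intro w; rw [← hx (x⁻¹ * w)]; simp

theorem exists_lowSub (f : FG) : ∃ k, f ∈ lowSub k := by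
  induction f using FreeGroup.induction_on with
  | C1 => exact ⟨0, one_mem _⟩
  | of τ => exact ⟨τ + 1, Subgroup.subset_closure ⟨τ, by simp, rfl⟩⟩
  | inv_of τ ih => obtain ⟨k, hk⟩ := ih; exact ⟨k, inv_mem hk⟩
  | mul a b ha hb =>
    obtain ⟨k, hk⟩ := ha
    obtain ⟨l, hl⟩ := hb
    exact ⟨max k l, mul_mem (lowSub_mono (le_max_left _ _) hk) (lowSub_mono (le_max_right _ _) hl)⟩

theorem exists_lowSub_finset (F : Finset FG) : ∃ k, ∀ f ∈ F, f ∈ lowSub k := by
  classical
  induction F using Finset.induction_on with
  | empty => exact ⟨0, by simp⟩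
  | insert a s _ ih =>
    obtain ⟨k, hk⟩ := ih
    obtain ⟨l, hl⟩ := exists_lowSub a
    refine ⟨max k l, fun f hf => ?_⟩
    rcases Finset.mem_insert.1 hf with rfl | hf
    · exact lowSub_mono (le_max_right _ _) hl
    · exact lowSub_mono (le_max_left _ _) (hk f hf)

/-- Finite satisfiability, with forbidden colours. -/
theorem finite_sat {n m : ℕ} (W : (Fin n → ℕ) → Prop)
    (hup : ∀ u v, u ≤ v → W u → W v) (h1 : W (fun _ => 1))
    (hcl : ∀ u v i, W (u + Pi.single i 1) → W (v + Pi.single i m) → W (u + v))
    (col : ℕ → Fin n) (F : ℕ → Finset FG) (hFm : ∀ σ, (F σ).card ≤ m)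
    (hFl : ∀ σ, ∀ f ∈ F σ, f ∈ lowSub σ) (E : Finset (ℕ × FG)) :
    ∀ S : Fin n → Finset FG, ¬ W (fun j => (S j).card) →
      ∃ x : FG → Fin n, (∀ j, ∀ y ∈ S j, x y ≠ j) ∧
        ∀ e ∈ E, ∀ f ∈ F e.1, ¬ (x (of e.1 * e.2) = col e.1 ∧ x (f * e.2) = col e.1) := by
  classical
  induction E using Finset.induction_on_max_value (fun e : ℕ × FG => e.1) with
  | empty =>
    intro S hS
    have : ∃ j, S j = ∅ := by
      by_contra hcon
      push Not at hcon
      exact hS (hup _ _ (fun j => Finset.card_pos.2 (hcon j)) h1)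
    obtain ⟨j, hj⟩ := this
    refine ⟨fun _ => j, ?_, by simp⟩
    intro k y hy hjk
    have hjk' : j = k := hjk
    subst hjk'
    simp [hj] at hy
  | insert a E ha hmax ih =>
    intro S hS
    obtain ⟨σ, h⟩ := a
    -- both ends of every other edge lie on one side
    have hsame : ∀ e ∈ E, ∀ f ∈ F e.1,
        side σ h (of e.1 * e.2) = side σ h (f * e.2) := by
      intro e he f hf
      have hle : e.1 ≤ σ := hmax e he
      rw [side_low σ h (lowSub_mono hle (hFl _ f hf)), side_of_mul, if_neg]
      rintro ⟨h1, h2⟩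
      exact ha (by rw [← h1, ← h2]; exact he)
    -- gluing two colourings along the edge
    have glue : ∀ xL xR : FG → Fin n,
        (∀ j, ∀ y ∈ S j, side σ h y = true → xL y ≠ j) →
        (∀ j, ∀ y ∈ S j, side σ h y = false → xR y ≠ j) →
        (∀ e ∈ E, ∀ f ∈ F e.1, ¬ (xL (of e.1 * e.2) = col e.1 ∧ xL (f * e.2) = col e.1)) →
        (∀ e ∈ E, ∀ f ∈ F e.1, ¬ (xR (of e.1 * e.2) = col e.1 ∧ xR (f * e.2) = col e.1)) →
        (xL (of σ * h) ≠ col σ ∨ ∀ f ∈ F σ, xR (f * h) ≠ col σ) →
        ∃ x : FG → Fin n, (∀ j, ∀ y ∈ S j, x y ≠ j) ∧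
          ∀ e ∈ insert (σ, h) E, ∀ f ∈ F e.1,
            ¬ (x (of e.1 * e.2) = col e.1 ∧ x (f * e.2) = col e.1) := by
      intro xL xR hL hR hEL hER hor
      refine ⟨fun y => if side σ h y = true then xL y else xR y, ?_, ?_⟩
      · intro j y hy
        by_cases hs : side σ h y = true
        · simp only [if_pos hs]; exact hL j y hy hs
        · simp only [if_neg hs]; exact hR j y hy (by simpa using hs)
      · intro e he f hf
        rcases Finset.mem_insert.1 he with rfl | he
        · have e1 : side σ h (of σ * h) = true := side_top σ h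
          have e2 : side σ h (f * h) = false := by
            rw [side_low σ h (hFl _ f hf), side_self]
          simp only [e1, e2, if_true, Bool.false_eq_true, if_false]
          rintro ⟨g1, g2⟩
          rcases hor with hor | hor
          · exact hor g1
          · exact hor f hf g2
        · have := hsame e he f hf
          by_cases hs : side σ h (f * e.2) = true
          · simp only [this, if_pos hs]; exact hEL e he f hf
          · simp only [this, if_neg hs]; exact hER e he f hf
    set SL : Fin n → Finset FG := fun j => (S j).filter (fun y => side σ h y = true) with hSL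
    set SR : Fin n → Finset FG := fun j => (S j).filter (fun y => ¬ side σ h y = true) with hSR
    have hsum : ((fun j => (SL j).card) + fun j => (SR j).card) = fun j => (S j).card := by
      funext j
      exact Finset.card_filter_add_card_filter_not _
    obtain ⟨x0, hx0S, hx0E⟩ := ih S hS
    by_cases hWL : W ((fun j => (SL j).card) + Pi.single (col σ) 1)
    · have hWR : ¬ W ((fun j => (SR j).card) + Pi.single (col σ) m) := by
        intro hWR
        exact hS (hsum ▸ hcl _ _ _ hWL hWR)
      set T : Fin n → Finset FG := fun j =>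
        if j = col σ then SR j ∪ (F σ).image (· * h) else SR j with hT
      have hTW : ¬ W (fun j => (T j).card) := by
        intro hW
        refine hWR (hup _ _ (fun j => ?_) hW)
        by_cases hj : j = col σ
        · subst hj
          simp only [hT, if_true, Pi.add_apply, Pi.single_eq_same]
          exact (Finset.card_union_le _ _).trans
            (Nat.add_le_add_left (Finset.card_image_le.trans (hFm σ)) _)
        · simp [hT, hj]
      obtain ⟨xR, hxS, hxE⟩ := ih T hTW
      refine glue x0 xR (fun j y hy _ => hx0S j y hy) (fun j y hy hs => hxS j y ?_) hx0E hxE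
        (Or.inr fun f hf => hxS (col σ) (f * h) ?_)
      · have : y ∈ SR j := Finset.mem_filter.2 ⟨hy, by simp [hs]⟩
        by_cases hj : j = col σ
        · simp only [hT, if_pos hj]; exact Finset.mem_union_left _ this
        · simp only [hT, if_neg hj]; exact this
      · simp only [hT, if_true]
        exact Finset.mem_union_right _ (Finset.mem_image.2 ⟨f, hf, rfl⟩)
    · set T : Fin n → Finset FG := fun j =>
        if j = col σ then insert (of σ * h) (SL j) else SL j with hT
      have hTW : ¬ W (fun j => (T j).card) := by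
        intro hW
        refine hWL (hup _ _ (fun j => ?_) hW)
        by_cases hj : j = col σ
        · subst hj
          simp only [hT, if_true, Pi.add_apply, Pi.single_eq_same]
          exact Finset.card_insert_le _ _
        · simp [hT, hj]
      obtain ⟨xL, hxS, hxE⟩ := ih T hTW
      refine glue xL x0 (fun j y hy hs => hxS j y ?_) (fun j y hy _ => hx0S j y hy) hxE hx0E
        (Or.inl (hxS (col σ) (of σ * h) ?_))
      · have : y ∈ SL j := Finset.mem_filter.2 ⟨hy, hs⟩
        by_cases hj : j = col σ
        · simp only [hT, if_pos hj]; exact Finset.mem_insert_of_mem this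
        · simp only [hT, if_neg hj]; exact this
      · simp only [hT, if_true]
        exact Finset.mem_insert_self _ _

/-- The colouring of the whole free group, by compactness. -/
theorem core {n m : ℕ} (W : (Fin n → ℕ) → Prop)
    (hup : ∀ u v, u ≤ v → W u → W v) (h1 : W (fun _ => 1)) (h0 : ¬ W 0)
    (hcl : ∀ u v i, W (u + Pi.single i 1) → W (v + Pi.single i m) → W (u + v)) :
    ∃ x : FG → Fin n, ∀ (i : Fin n) (F : Finset FG), F.card ≤ m →
      ∃ g : FG, ∀ h : FG, ∀ f ∈ F, ¬ (x (g * h) = i ∧ x (f * h) = i) := by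
  classical
  have hn : Nonempty (Fin n) := by
    by_contra hc
    apply h0
    have : (0 : Fin n → ℕ) = fun _ => 1 := funext fun j => absurd ⟨j⟩ hc
    rw [this]; exact h1
  obtain ⟨en, hen⟩ := exists_surjective_nat ((Fin n × Finset FG) × ℕ)
  let col : ℕ → Fin n := fun σ => (en σ).1.1
  let F : ℕ → Finset FG := fun σ =>
    if (en σ).1.2.card ≤ m ∧ ∀ f ∈ (en σ).1.2, f ∈ lowSub σ then (en σ).1.2 else ∅
  have hFm : ∀ σ, (F σ).card ≤ m := by
    intro σ
    simp only [F]
    split_ifs with hc
    · exact hc.1
    · simp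
  have hFl : ∀ σ, ∀ f ∈ F σ, f ∈ lowSub σ := by
    intro σ
    simp only [F]
    split_ifs with hc
    · exact hc.2
    · simp
  let K : ℕ × FG → Set (FG → Fin n) := fun e =>
    {x | ∀ f ∈ F e.1, ¬ (x (of e.1 * e.2) = col e.1 ∧ x (f * e.2) = col e.1)}
  have hKc : ∀ e, IsClosed (K e) := by
    intro e
    have : K e = ⋂ f ∈ F e.1,
        (fun x : FG → Fin n => (x (of e.1 * e.2), x (f * e.2))) ⁻¹'
          {p | ¬ (p.1 = col e.1 ∧ p.2 = col e.1)} := by
      ext x; simp only [K, Set.mem_ofPred_eq, Set.mem_iInter, Set.mem_preimage]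
    rw [this]
    exact isClosed_biInter fun f _ => (isClosed_discrete _).preimage
      ((continuous_apply _).prodMk (continuous_apply _))
  obtain ⟨x, -, hx⟩ := (isCompact_univ (X := FG → Fin n)).inter_iInter_nonempty K hKc (by
    intro E
    obtain ⟨x, -, hx⟩ := finite_sat W hup h1 hcl col F hFm hFl E (fun _ => ∅) (fun hW => h0 hW)
    exact ⟨x, trivial, Set.mem_iInter₂.2 fun e he => hx e he⟩)
  refine ⟨x, fun i F0 hF0 => ?_⟩
  obtain ⟨k, hk⟩ := exists_lowSub_finset F0
  have hinf : ∃ σ, k ≤ σ ∧ (en σ).1 = (i, F0) := by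
    by_contra hc
    push Not at hc
    choose s hs using fun t : ℕ => hen ((i, F0), t)
    have hinj : Function.Injective s := by
      intro a b hab
      have := hs a
      rw [hab, hs b] at this
      exact (congrArg Prod.snd this).symm
    have hlt : ∀ t, s t < k := by
      intro t
      by_contra hge
      exact hc (s t) (not_lt.1 hge) (by rw [hs t])
    exact Set.infinite_range_of_injective hinj
      ((Set.finite_lt_nat k).subset (by rintro _ ⟨t, rfl⟩; exact hlt t))
  obtain ⟨σ, hσk, hσ⟩ := hinf
  have hFσ : F σ = F0 := by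
    simp only [F, hσ]
    rw [if_pos ⟨hF0, fun f hf => lowSub_mono hσk (hk f hf)⟩]
  have hcσ : col σ = i := by simp only [col, hσ]
  refine ⟨of σ, fun h f hf => ?_⟩
  have := Set.mem_iInter.1 hx (σ, h)
  simp only [K, Set.mem_ofPred_eq, hFσ, hcσ] at this
  exact this f hf

end Pool.Agent.P.MP_317811_al
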