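import Pool.Agent.P.MP_317811_al.Core

/-!
The set of size vectors for four colours and sets of at most four elements.
-/

set_option autoImplicit false

namespace Pool.Agent.P.MP_317811_al

/-- The minimal size vectors: all rearrangements of nine vectors. -/
def gens : List (ℕ × ℕ × ℕ × ℕ) :=
  [
   (1, 1, 1, 1), (0, 2, 2, 2), (2, 0, 2, 2), (2, 2, 0, 2), (2, 2, 2, 0), (0, 1, 2, 3),
   (0, 1, 3, 2), (0, 2, 1, 3), (0, 2, 3, 1), (0, 3, 1, 2), (0, 3, 2, 1), (1, 0, 2, 3),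
   (1, 0, 3, 2), (1, 2, 0, 3), (1, 2, 3, 0), (1, 3, 0, 2), (1, 3, 2, 0), (2, 0, 1, 3),
   (2, 0, 3, 1), (2, 1, 0, 3), (2, 1, 3, 0), (2, 3, 0, 1), (2, 3, 1, 0), (3, 0, 1, 2),
   (3, 0, 2, 1), (3, 1, 0, 2), (3, 1, 2, 0), (3, 2, 0, 1), (3, 2, 1, 0), (0, 1, 1, 5),
   (0, 1, 5, 1), (0, 5, 1, 1), (1, 0, 1, 5), (1, 0, 5, 1), (1, 1, 0, 5), (1, 1, 5, 0),
   (1, 5, 0, 1), (1, 5, 1, 0), (5, 0, 1, 1), (5, 1, 0, 1), (5, 1, 1, 0), (0, 0, 4, 4),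
   (0, 4, 0, 4), (0, 4, 4, 0), (4, 0, 0, 4), (4, 0, 4, 0), (4, 4, 0, 0), (0, 0, 3, 5),
   (0, 0, 5, 3), (0, 3, 0, 5), (0, 3, 5, 0), (0, 5, 0, 3), (0, 5, 3, 0), (3, 0, 0, 5),
   (3, 0, 5, 0), (3, 5, 0, 0), (5, 0, 0, 3), (5, 0, 3, 0), (5, 3, 0, 0), (0, 0, 2, 7),
   (0, 0, 7, 2), (0, 2, 0, 7), (0, 2, 7, 0), (0, 7, 0, 2), (0, 7, 2, 0), (2, 0, 0, 7),
   (2, 0, 7, 0), (2, 7, 0, 0), (7, 0, 0, 2), (7, 0, 2, 0), (7, 2, 0, 0), (0, 0, 1, 9),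
   (0, 0, 9, 1), (0, 1, 0, 9), (0, 1, 9, 0), (0, 9, 0, 1), (0, 9, 1, 0), (1, 0, 0, 9),
   (1, 0, 9, 0), (1, 9, 0, 0), (9, 0, 0, 1), (9, 0, 1, 0), (9, 1, 0, 0), (0, 0, 0, 13),
   (0, 0, 13, 0), (0, 13, 0, 0), (13, 0, 0, 0)]

/-- Membership test for the upward closure of `gens`. -/
def inW (a b c d : ℕ) : Bool :=
  gens.any fun p => Nat.ble p.1 a && Nat.ble p.2.1 b && Nat.ble p.2.2.1 c && Nat.ble p.2.2.2 d

/-- The finite closure check. -/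
def checkAll : Bool :=
  gens.all fun p => gens.all fun q =>
    inW (p.1 - 1 + (q.1 - 4)) (p.2.1 + q.2.1) (p.2.2.1 + q.2.2.1) (p.2.2.2 + q.2.2.2) &&
    inW (p.1 + q.1) (p.2.1 - 1 + (q.2.1 - 4)) (p.2.2.1 + q.2.2.1) (p.2.2.2 + q.2.2.2) &&
    inW (p.1 + q.1) (p.2.1 + q.2.1) (p.2.2.1 - 1 + (q.2.2.1 - 4)) (p.2.2.2 + q.2.2.2) &&
    inW (p.1 + q.1) (p.2.1 + q.2.1) (p.2.2.1 + q.2.2.1) (p.2.2.2 - 1 + (q.2.2.2 - 4))

theorem checkAll_true : checkAll = true := by decide +kernel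

theorem inW_iff (a b c d : ℕ) :
    inW a b c d = true ↔ ∃ p ∈ gens, p.1 ≤ a ∧ p.2.1 ≤ b ∧ p.2.2.1 ≤ c ∧ p.2.2.2 ≤ d := by
  simp [inW, List.any_eq_true, and_assoc]

theorem inW_mono {a b c d a' b' c' d' : ℕ} (ha : a ≤ a') (hb : b ≤ b') (hc : c ≤ c')
    (hd : d ≤ d') (h : inW a b c d = true) : inW a' b' c' d' = true := by
  obtain ⟨p, hp, h1, h2, h3, h4⟩ := (inW_iff _ _ _ _).1 h
  exact (inW_iff _ _ _ _).2 ⟨p, hp, h1.trans ha, h2.trans hb, h3.trans hc, h4.trans hd⟩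

/-- The upward closed set of vectors. -/
def W4 (v : Fin 4 → ℕ) : Prop := inW (v 0) (v 1) (v 2) (v 3) = true

theorem W4_up (u v : Fin 4 → ℕ) (huv : u ≤ v) (h : W4 u) : W4 v :=
  inW_mono (huv 0) (huv 1) (huv 2) (huv 3) h

theorem W4_one : W4 (fun _ => 1) := by
  show inW 1 1 1 1 = true
  decide +kernel

theorem W4_zero : ¬ W4 0 := by
  show ¬ (inW 0 0 0 0 = true)
  decide +kernel

theorem W4_closed (u v : Fin 4 → ℕ) (i : Fin 4) (hu : W4 (u + Pi.single i 1))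
    (hv : W4 (v + Pi.single i 4)) : W4 (u + v) := by
  obtain ⟨p, hp, p1, p2, p3, p4⟩ := (inW_iff _ _ _ _).1 hu
  obtain ⟨q, hq, q1, q2, q3, q4⟩ := (inW_iff _ _ _ _).1 hv
  have hc := List.all_eq_true.1 (List.all_eq_true.1 checkAll_true p hp) q hq
  simp only [Bool.and_eq_true] at hc
  obtain ⟨⟨⟨c0, c1⟩, c2⟩, c3⟩ := hc
  show inW (u 0 + v 0) (u 1 + v 1) (u 2 + v 2) (u 3 + v 3) = true
  fin_cases i
  · simp at p1 p2 p3 p4 q1 q2 q3 q4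
    exact inW_mono (by omega) (by omega) (by omega) (by omega) c0
  · simp at p1 p2 p3 p4 q1 q2 q3 q4
    exact inW_mono (by omega) (by omega) (by omega) (by omega) c1
  · simp at p1 p2 p3 p4 q1 q2 q3 q4
    exact inW_mono (by omega) (by omega) (by omega) (by omega) c2
  · simp at p1 p2 p3 p4 q1 q2 q3 q4
    exact inW_mono (by omega) (by omega) (by omega) (by omega) c3

/-- A four-colouring of the free group in which no four translates of a colour class meet every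
translate of that class. -/
theorem four_colouring :
    ∃ x : FG → Fin 4, ∀ (i : Fin 4) (F : Finset FG), F.card ≤ 4 →
      ∃ g : FG, ∀ h : FG, ∀ f ∈ F, ¬ (x (g * h) = i ∧ x (f * h) = i) :=
  core W4 W4_up W4_one W4_zero W4_closed

end Pool.Agent.P.MP_317811_al
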