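import Pool.Agent.P.MP_317811_al.Core

/-!
An explicit closed set of size vectors for every number of colours.
-/

set_option autoImplicit false

namespace Pool.Agent.P.MP_317811_al

open Finset

/-- the geometric sum -/
def geo (k s : ℕ) : ℕ := ∑ j ∈ range s, k ^ j

/-- the weight of the place `j` -/
def wt (k r j : ℕ) : ℤ := min ((k : ℤ) ^ j) (1 + geo k r)

/-- the value of the entry `t` at the place `j` -/
def val (k r j t : ℕ) : ℤ := if t = 0 then -(1 + geo k r) else wt k r j * (t - 1)

/-- the set of size vectors -/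
def WS (n k r : ℕ) (u : Fin n → ℕ) : Prop :=
  ∀ σ : Equiv.Perm (Fin n), 0 ≤ ∑ j, val k r (σ j) (u j)

variable {n k r : ℕ}

theorem geo_succ (k s : ℕ) : geo k (s + 1) = k * geo k s + 1 := by
  simp only [geo, sum_range_succ', pow_succ', mul_sum, pow_zero]

theorem geo_le (hk : 1 ≤ k) (T : Finset ℕ) : geo k T.card ≤ ∑ t ∈ T, k ^ t := by
  induction T using Finset.induction_on_max with
  | empty => simp [geo]
  | insert a T h ih =>
    have ha : a ∉ T := fun h' => lt_irrefl _ (h a h')
    have hc : T.card ≤ a := by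
      simpa using card_le_card (s := T) (t := range a) fun x hx => mem_range.2 (h x hx)
    rw [card_insert_of_notMem ha, sum_insert ha, geo, sum_range_succ, add_comm]
    exact add_le_add (Nat.pow_le_pow_right hk hc) ih

theorem geo_key (hk : 2 ≤ k) {s : ℕ} (h : geo k s ≤ geo k r) :
    2 * (geo k r : ℤ) ≤ k * geo k s + ((r : ℤ) - s) * (1 + geo k r) := by
  have hm : StrictMono (geo k) := strictMono_nat_of_lt_succ fun s => by
    rw [geo_succ]; nlinarith
  obtain ⟨d, rfl⟩ := Nat.exists_eq_add_of_le (hm.le_iff_le.1 h)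
  have hk' : (2 : ℤ) ≤ k := by exact_mod_cast hk
  rcases d with _ | _ | d
  · simp only [add_zero, sub_self, zero_mul]
    exact mul_le_mul_of_nonneg_right hk' (Nat.cast_nonneg _)
  · rw [zero_add, geo_succ]
    push_cast
    linarith
  · have h1 : (0 : ℤ) ≤ geo k (s + (d + 1 + 1)) := Nat.cast_nonneg _
    have h2 : (0 : ℤ) ≤ k * geo k s := by positivity
    have h3 : (0 : ℤ) ≤ d := Nat.cast_nonneg _
    push_cast
    nlinarith

theorem wt_nonneg (j : ℕ) : 0 ≤ wt k r j := le_min (by positivity) (by positivity)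

theorem wt_le (j : ℕ) : wt k r j ≤ 1 + geo k r := min_le_right _ _

theorem wt_zero : wt k r 0 = 1 := by
  rw [wt, pow_zero]
  exact min_eq_left (le_add_of_nonneg_right (Nat.cast_nonneg _))

theorem wt_step (hk : 1 ≤ k) {i j : ℕ} (h : i ≤ j + 1) : wt k r i ≤ k * wt k r j := by
  have hk' : (1 : ℤ) ≤ k := by exact_mod_cast hk
  rw [wt, wt, mul_min_of_nonneg _ _ (by positivity), ← pow_succ']
  exact min_le_min (pow_le_pow_right₀ hk' h) (le_mul_of_one_le_left (by positivity) hk')

theorem val_add (j a b : ℕ) : val k r j a + wt k r j * b ≤ val k r j (a + b) := by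
  have h1 := wt_le (k := k) (r := r) j
  rcases a with _ | a
  · rcases b with _ | b
    · simp
    · simp only [val, if_true, zero_add, Nat.succ_ne_zero, if_false]
      linarith
  · rw [val, val, if_neg (by omega), if_neg (by omega)]
    push_cast
    linarith

theorem val_succ (j a : ℕ) : val k r j (a + 1) = wt k r j * a := by
  rw [val, if_neg (by omega)]
  push_cast
  ring

theorem WS_up (u v : Fin n → ℕ) (h : u ≤ v) (hu : WS n k r u) : WS n k r v := fun σ =>
  (hu σ).trans (sum_le_sum fun j _ => by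
    obtain ⟨b, hb⟩ := Nat.exists_eq_add_of_le (h j)
    rw [hb]
    exact (le_add_of_nonneg_right (mul_nonneg (wt_nonneg _) (Nat.cast_nonneg b))).trans
      (val_add _ _ b))

theorem WS_one : WS n k r fun _ => 1 := fun σ => by simp [val]

theorem WS_zero (hn : 0 < n) : ¬ WS n k r 0 := fun h => by
  have h1 := h 1
  simp only [val, Pi.zero_apply, if_true, sum_const, card_univ, Fintype.card_fin,
    nsmul_eq_mul] at h1
  have h2 : (0 : ℤ) < n := by exact_mod_cast hn
  have h3 : (0 : ℤ) ≤ geo k r := Nat.cast_nonneg _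
  nlinarith

/-- a vector that becomes large after raising a zero entry is heavy -/
theorem heavy (hk : 2 ≤ k) (hn : n = r + k) {v : Fin n → ℕ} {i : Fin n} (hi : v i = 0)
    (hv : WS n k r (v + Pi.single i (geo k r + (k - 1)))) (σ : Equiv.Perm (Fin n)) :
    1 + (geo k r : ℤ) ≤ ∑ j, wt k r (σ j) * v j := by
  by_contra hc
  have hc' : ∑ j, wt k r (σ j) * v j ≤ geo k r := by omega
  have : NeZero n := ⟨by omega⟩
  set S : Finset (Fin n) := univ.filter fun j => v j ≠ 0 with hS
  have hw : ∀ j ∈ S, wt k r (σ j) = (k : ℤ) ^ (σ j : ℕ) := fun j hj => by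
    have h1 : (1 : ℤ) ≤ v j := by exact_mod_cast Nat.pos_of_ne_zero (mem_filter.1 hj).2
    have h2 := single_le_sum (f := fun j => wt k r (σ j) * v j)
      (fun j _ => mul_nonneg (wt_nonneg _) (Nat.cast_nonneg _)) (mem_univ j)
    have h3 := le_mul_of_one_le_right (wt_nonneg (k := k) (r := r) (σ j)) h1
    rcases min_choice ((k : ℤ) ^ (σ j : ℕ)) (1 + geo k r) with h | h
    · exact h
    · rw [wt, h] at h3
      rw [wt, h] at h2
      linarith
  have hg : (geo k S.card : ℤ) ≤ ∑ j ∈ S, wt k r (σ j) := by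
    have h1 := geo_le (by omega : 1 ≤ k) (S.image fun j => (σ j : ℕ))
    have hinj : Function.Injective fun j => (σ j : ℕ) := Fin.val_injective.comp σ.injective
    rw [card_image_of_injective _ hinj, sum_image hinj.injOn] at h1
    rw [sum_congr rfl hw]
    exact_mod_cast h1
  have hs : ∑ j ∈ S, wt k r (σ j) ≤ ∑ j, wt k r (σ j) * v j :=
    (sum_le_sum fun j hj => le_mul_of_one_le_right (wt_nonneg _)
      (by exact_mod_cast Nat.pos_of_ne_zero (mem_filter.1 hj).2)).trans
      (sum_le_sum_of_subset_of_nonneg (subset_univ S) fun j _ _ =>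
        mul_nonneg (wt_nonneg _) (Nat.cast_nonneg _))
  have key := geo_key (r := r) hk (s := S.card) (by exact_mod_cast hg.trans (hs.trans hc'))
  have h0 := hv (σ.trans (σ i).cycleRange)
  have hb : ∀ j, val k r ((σ i).cycleRange (σ j)) ((v + Pi.single i (geo k r + (k - 1)) :
      Fin n → ℕ) j) ≤ k * (wt k r (σ j) * v j) - (1 + geo k r) +
      ((if j ∈ S then 1 + geo k r - k * wt k r (σ j) else 0) +
        if j = i then 2 * (geo k r : ℤ) + k - 1 else 0) := fun j => by
    by_cases hj : j = i
    · obtain ⟨k, rfl⟩ : ∃ l, k = l + 2 := ⟨k - 2, by omega⟩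
      rw [hj, Pi.add_apply, Pi.single_eq_same, hi, Fin.cycleRange_self, Fin.val_zero,
        show 0 + (geo (k + 2) r + (k + 2 - 1)) = geo (k + 2) r + k + 1 by omega, val_succ, wt_zero,
        if_neg (by simp [hS, hi]), if_pos rfl]
      push_cast
      linarith
    · rw [Pi.add_apply, Pi.single_eq_of_ne hj, add_zero, if_neg hj, add_zero]
      by_cases hv : v j = 0
      · simp [val, hv, hS]
      · have h1 : ((σ i).cycleRange (σ j) : ℕ) ≤ σ j + 1 := by
          rcases lt_trichotomy (σ j) (σ i) with h | h | h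
          · exact (Fin.coe_cycleRange_of_lt h).le
          · exact absurd (σ.injective h) hj
          · rw [Fin.cycleRange_of_gt h]
            omega
        have h2 : (0 : ℤ) ≤ (v j : ℤ) - 1 :=
          sub_nonneg.2 (by exact_mod_cast Nat.pos_of_ne_zero hv)
        rw [val, if_neg hv, if_pos (by simp [hS, hv])]
        linarith [mul_le_mul_of_nonneg_right (wt_step (r := r) (by omega : 1 ≤ k) h1) h2]
  have h1 := h0.trans (sum_le_sum fun j _ => hb j)
  simp only [sum_add_distrib, sum_sub_distrib, ← mul_sum, sum_const, card_univ, Fintype.card_fin,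
    nsmul_eq_mul, sum_ite_mem, univ_inter, sum_ite_eq', mem_univ, if_true] at h1
  have hk' : (0 : ℤ) ≤ k := Nat.cast_nonneg k
  have hn' : (n : ℤ) = r + k := by exact_mod_cast hn
  rw [hn'] at h1
  nlinarith [mul_le_mul_of_nonneg_left hc' hk', mul_le_mul_of_nonneg_left hg hk']

theorem WS_closed (hk : 2 ≤ k) (hn : n = r + k) (u v : Fin n → ℕ) (i : Fin n)
    (hu : WS n k r (u + Pi.single i 1)) (hv : WS n k r (v + Pi.single i (geo k r + (k - 1)))) :
    WS n k r (u + v) := fun σ => by
  by_cases hi : v i = 0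
  · have hb : ∀ j, val k r (σ j) ((u + Pi.single i 1 : Fin n → ℕ) j) + wt k r (σ j) * v j ≤
        val k r (σ j) ((u + v) j) + if j = i then 1 + (geo k r : ℤ) else 0 := fun j => by
      by_cases hj : j = i
      · rw [hj, Pi.add_apply, Pi.add_apply, Pi.single_eq_same, hi, if_pos rfl, val_succ, add_zero]
        have := val_add (k := k) (r := r) (σ i) 0 (u i)
        rw [zero_add, val, if_pos rfl] at this
        push_cast
        linarith
      · rw [Pi.add_apply, Pi.add_apply, Pi.single_eq_of_ne hj, add_zero, if_neg hj, add_zero]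
        exact val_add _ _ _
    have h1 := sum_le_sum fun j (_ : j ∈ univ) => hb j
    simp only [sum_add_distrib, sum_ite_eq', mem_univ, if_true] at h1
    linarith [hu σ, heavy hk hn hi hv σ]
  · refine WS_up _ _ (fun j => ?_) hu σ
    by_cases hj : j = i
    · rw [hj, Pi.add_apply, Pi.add_apply, Pi.single_eq_same]
      exact Nat.add_le_add_left (Nat.pos_of_ne_zero hi) _
    · rw [Pi.add_apply, Pi.add_apply, Pi.single_eq_of_ne hj]
      exact Nat.add_le_add_left (Nat.zero_le _) _

/-- A colouring in which few translates of a colour class never meet all translates. -/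
theorem big_colouring (hk : 2 ≤ k) (hn : k ≤ n) :
    ∃ x : FG → Fin n, ∀ (i : Fin n) (F : Finset FG), F.card ≤ geo k (n - k) + (k - 1) →
      ∃ g : FG, ∀ h : FG, ∀ f ∈ F, ¬ (x (g * h) = i ∧ x (f * h) = i) :=
  core (WS n k (n - k)) WS_up WS_one (WS_zero (by omega)) (WS_closed hk (by omega))

end Pool.Agent.P.MP_317811_al
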